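import Pool.Agent.Q113.HW.Two
import Pool.Agent.Q113.HW.Base

/-!
# `n`-central polynomials and the base field

Let `n` be a prime. For algebraically closed fields `K` of characteristic other than `n` the answer to
the question whether `M_n(K)` has an `n`-central polynomial depends only on the characteristic of `K`;
if it is yes in characteristic `0` (for any field), it is yes in characteristic `p` for all large `p`.
In general an `n`-central polynomial over an extension field of the infinite field `K` yields one over a
finite extension of `K`.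
-/

set_option autoImplicit false

namespace Pool.Agent.Results.MP_5d2531_al.BaseField

/-- Every value of `f` on `n × n` matrices over `K` is a scalar matrix. -/
def ScalarValued {K : Type*} [Field K] {σ : Type*} (n : ℕ) (f : FreeAlgebra K σ) : Prop :=
  ∀ X : σ → Matrix (Fin n) (Fin n) K, ∃ c : K, FreeAlgebra.lift K X f = Matrix.scalar (Fin n) c

/-- `f` is central for `M_n(K)`: all values are scalar and `f` is not identically zero. -/
def IsCentral {K : Type*} [Field K] {σ : Type*} (n : ℕ) (f : FreeAlgebra K σ) : Prop :=
  ScalarValued n f ∧ ∃ X : σ → Matrix (Fin n) (Fin n) K, FreeAlgebra.lift K X f ≠ 0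

/-- `f` is `ν`-central for `M_n(K)`: `ν` is the least positive integer with `f ^ ν` central. -/
def IsNuCentral {K : Type*} [Field K] {σ : Type*} (n ν : ℕ) (f : FreeAlgebra K σ) : Prop :=
  0 < ν ∧ IsCentral n (f ^ ν) ∧ ∀ μ : ℕ, 0 < μ → IsCentral n (f ^ μ) → ν ≤ μ

/-- There is an `n`-central polynomial for `M_n(K)`, in some number of variables. -/
def HasNCentral (n : ℕ) (K : Type*) [Field K] : Prop :=
  ∃ (m : ℕ) (f : FreeAlgebra K (Fin m)), IsNuCentral n n f

theorem toTT {K : Type*} [Field K] [Infinite K] {n : ℕ} (hn : n.Prime) (hnK : (n : K) ≠ 0)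
    (h : HasNCentral n K) : ∃ f : FreeAlgebra K (Fin 2), Q113.HW.TT n f := by
  obtain ⟨m, f, h1, h2, h3⟩ := h
  exact Q113.HW.two_variables hn.pos f (Q113.HW.TT_of_nu hn hnK f h2 h3)

theorem ofTT {K : Type*} [Field K] [Infinite K] {n : ℕ} (hn : n.Prime) (hnK : (n : K) ≠ 0)
    (f : FreeAlgebra K (Fin 2)) (h : Q113.HW.TT n f) : HasNCentral n K :=
  ⟨2, f, hn.pos, Q113.HW.nu_of_TT hn hnK f h⟩

universe u v

/-- Let `n` be a prime.
* If `K ⊆ L` are infinite fields with `n ≠ 0` and `M_n(K)` has an `n`-central polynomial, so has
  `M_n(L)`; if `M_n(L)` has one, so has `M_n(K')` for some finite extension `K'` of `K`.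
* If `K`, `L` are algebraically closed of the same characteristic `p ≠ n` then `M_n(K)` has an
  `n`-central polynomial if and only if `M_n(L)` has one.
* If `M_n(L)` has an `n`-central polynomial for some field `L` of characteristic `0`, then for all
  sufficiently large primes `p` and all algebraically closed `k` of characteristic `p` so has
  `M_n(k)`. -/
theorem result (n : ℕ) (hn : n.Prime) :
    (∀ (K : Type u) (L : Type v) [Field K] [Infinite K] [Field L] [Algebra K L], (n : K) ≠ 0 →
      (HasNCentral n K → HasNCentral n L) ∧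
      (HasNCentral n L → ∃ (K' : Type v) (_ : Field K') (_ : Algebra K K'),
        Module.Finite K K' ∧ HasNCentral n K')) ∧
    (∀ (p : ℕ) (K : Type u) (L : Type v) [Field K] [IsAlgClosed K] [CharP K p] [Field L]
      [IsAlgClosed L] [CharP L p], p ≠ n → (HasNCentral n K ↔ HasNCentral n L)) ∧
    (∀ (L : Type v) [Field L] [CharZero L], HasNCentral n L →
      ∃ B : ℕ, ∀ p : ℕ, p.Prime → B < p → ∀ (k : Type u) [Field k] [CharP k p] [IsAlgClosed k],
        HasNCentral n k) := by
  refine ⟨?_, ?_, ?_⟩
  · intro K L _ _ _ _ hnK
    have hnL : (n : L) ≠ 0 := by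
      rw [← map_natCast (algebraMap K L), Ne, map_eq_zero]
      exact hnK
    have : Infinite L := Infinite.of_injective _ (algebraMap K L).injective
    constructor
    · intro h
      obtain ⟨f, hf⟩ := toTT hn hnK h
      obtain ⟨S, hS⟩ := Q113.HW.specialise f hf
      obtain ⟨f', hf'⟩ := hS ⊤ (fun _ _ => trivial) L
        ((algebraMap K L).comp (Subring.subtype ⊤))
      exact ofTT hn hnL f' hf'
    · intro h
      obtain ⟨f, hf⟩ := toTT hn hnL h
      obtain ⟨K', i1, i2, hfin, f', hf'⟩ := Q113.HW.descend_finite (K := K) f hf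
      have hnK' : (n : K') ≠ 0 := by
        rw [← map_natCast (algebraMap K K'), Ne, map_eq_zero]
        exact hnK
      have : Infinite K' := Infinite.of_injective _ (algebraMap K K').injective
      exact ⟨K', i1, i2, hfin, ofTT hn hnK' f' hf'⟩
  · intro p K L _ _ _ _ _ _ hpn
    have hK : (n : K) ≠ 0 := by
      intro h
      rcases (Nat.dvd_prime hn).1 ((CharP.cast_eq_zero_iff K p n).1 h) with h1 | h1
      · have := CharP.cast_eq_zero K p
        rw [h1] at this
        simp at this
      · exact hpn h1
    have hL : (n : L) ≠ 0 := by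
      intro h
      rcases (Nat.dvd_prime hn).1 ((CharP.cast_eq_zero_iff L p n).1 h) with h1 | h1
      · have := CharP.cast_eq_zero L p
        rw [h1] at this
        simp at this
      · exact hpn h1
    have : Infinite K := IsAlgClosed.instInfinite
    have : Infinite L := IsAlgClosed.instInfinite
    rcases CharP.char_is_prime_or_zero K p with hp | hp
    · have : Fact p.Prime := ⟨hp⟩
      let _ : Algebra (ZMod p) K := ZMod.algebra _ p
      let _ : Algebra (ZMod p) L := ZMod.algebra _ p
      constructor
      · intro h
        obtain ⟨f, hf⟩ := toTT hn hK h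
        obtain ⟨f', hf'⟩ := Q113.HW.transfer_closed (F := ZMod p) (k := L) f hf
        exact ofTT hn hL f' hf'
      · intro h
        obtain ⟨f, hf⟩ := toTT hn hL h
        obtain ⟨f', hf'⟩ := Q113.HW.transfer_closed (F := ZMod p) (k := K) f hf
        exact ofTT hn hK f' hf'
    · subst hp
      have : CharZero K := CharP.charP_to_charZero K
      have : CharZero L := CharP.charP_to_charZero L
      constructor
      · intro h
        obtain ⟨f, hf⟩ := toTT hn hK h
        obtain ⟨f', hf'⟩ := Q113.HW.transfer_closed (F := ℚ) (k := L) f hf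
        exact ofTT hn hL f' hf'
      · intro h
        obtain ⟨f, hf⟩ := toTT hn hL h
        obtain ⟨f', hf'⟩ := Q113.HW.transfer_closed (F := ℚ) (k := K) f hf
        exact ofTT hn hK f' hf'
  · intro L _ _ h
    have hL : (n : L) ≠ 0 := by exact_mod_cast hn.ne_zero
    obtain ⟨f, hf⟩ := toTT hn hL h
    obtain ⟨B, hB⟩ := Q113.HW.large_char f hf
    refine ⟨max B n, fun p hp hlt k _ _ _ => ?_⟩
    have hk : (n : k) ≠ 0 := by
      intro h
      rcases (Nat.dvd_prime hn).1 ((CharP.cast_eq_zero_iff k p n).1 h) with h1 | h1
      · exact hp.one_lt.ne' h1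
      · have := le_max_right B n
        omega
    have : Infinite k := IsAlgClosed.instInfinite
    obtain ⟨f', hf'⟩ := hB p hp (lt_of_le_of_lt (le_max_left _ _) hlt) k
    exact ofTT hn hk f' hf'

end Pool.Agent.Results.MP_5d2531_al.BaseField
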