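import Pool.Agent.Results.MP_5d2531_al.BlockTriangular
import Pool.Agent.Q118.NC.Blk

/-!
# Central powers need many monomials

Let `n` be an odd prime, `K` an infinite field and `f` an `n`-central polynomial for `M_n(K)`. Then each
nonconstant monomial of `f` has at least `2 ^ n` rearrangements (permutations of its letters, itself
included) which are also monomials of `f`. So each nonzero multihomogeneous component of `f` of positive
degree has at least `2 ^ n` terms.

The proof: up to its constant term `f` vanishes on the upper triangular matrices (starting result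
`BlockTriangular`), and so do its multihomogeneous components. A nonzero polynomial which vanishes on the
upper triangular matrices of size `m` has at least `2 ^ m` terms (the bound is attained by products of `m`
commutators in different variables), by induction on `m`: after the cancellation of the longest common
prefix there are two different first letters, and the parts behind them vanish on the upper triangular
matrices of size `m - 1`.
-/

set_option autoImplicit false

namespace Pool.Agent.Results.MP_5d2531_al.ManyTerms

/-- Every value of `f` on `n × n` matrices over `K` is a scalar matrix. -/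
def ScalarValued {K : Type*} [Field K] {σ : Type*} (n : ℕ) (f : FreeAlgebra K σ) : Prop :=
  ∀ X : σ → Matrix (Fin n) (Fin n) K, ∃ c : K, FreeAlgebra.lift K X f = Matrix.scalar (Fin n) c

/-- `f` is central for `M_n(K)`: all values are scalar and `f` is not identically zero. -/
def IsCentral {K : Type*} [Field K] {σ : Type*} (n : ℕ) (f : FreeAlgebra K σ) : Prop :=
  ScalarValued n f ∧ ∃ X : σ → Matrix (Fin n) (Fin n) K, FreeAlgebra.lift K X f ≠ 0

/-- `f` is `ν`-central for `M_n(K)`: `ν` is the least positive integer with `f ^ ν` central. -/
def IsNuCentral {K : Type*} [Field K] {σ : Type*} (n ν : ℕ) (f : FreeAlgebra K σ) : Prop :=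
  0 < ν ∧ IsCentral n (f ^ ν) ∧ ∀ μ : ℕ, 0 < μ → IsCentral n (f ^ μ) → ν ≤ μ

/-- The coefficient of the word `l` in `f`. -/
noncomputable def coef {K : Type*} [Field K] {σ : Type*} (f : FreeAlgebra K σ) (l : List σ) : K :=
  (FreeAlgebra.equivMonoidAlgebraFreeMonoid f).coeff (FreeMonoid.ofList l)

/-- Let `n` be an odd prime, `K` an infinite field of any characteristic and `f` an `n`-central
polynomial for `M_n(K)`. For every nonempty word `l` with nonzero coefficient in `f` at least `2 ^ n`
permutations of `l` have nonzero coefficient in `f`. -/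
theorem result {K : Type*} [Field K] [Infinite K] {σ : Type*} (n : ℕ) (hn : n.Prime) (hn2 : n ≠ 2)
    (f : FreeAlgebra K σ) (hcen : IsNuCentral n n f) (l : List σ) (hl : l ≠ [])
    (hlf : coef f l ≠ 0) :
    {l' : List σ | l'.Perm l ∧ coef f l' ≠ 0}.Finite ∧
      2 ^ n ≤ {l' : List σ | l'.Perm l ∧ coef f l' ≠ 0}.ncard := by
  classical
  obtain ⟨hblk, -⟩ := BlockTriangular.result n hn hn2 f hcen
  obtain ⟨N, rfl⟩ : ∃ N, n = 1 + N := ⟨n - 1, by have := hn.two_le; omega⟩
  have hN : 0 < N := by have := hn.two_le; omega
  set F : List σ →₀ K := (Pool.Agent.Q118.NC.W f).erase [] with hF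
  have hJ : Pool.Agent.Q118.NC.J (1 + N) F := by
    rcases hblk 1 N one_pos hN rfl with h | h
    · apply Pool.Agent.Q118.NC.J_of_upper
      intro A A' B
      rw [hF, Pool.Agent.Q118.NC.ev_erase, h A A' B]
      rw [sub_eq_zero, Matrix.smul_one_eq_diagonal]
      rfl
    · apply Pool.Agent.Q118.NC.J_of_lower
      intro A A' C
      rw [hF, Pool.Agent.Q118.NC.ev_erase, h A A' C]
      rw [sub_eq_zero, Matrix.smul_one_eq_diagonal]
      rfl
  have hJ' := Pool.Agent.Q118.NC.J_filter hJ l
  have hval : ∀ l' : List σ, (F.filter fun w => w.Perm l) l' =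
      if l'.Perm l then coef f l' else 0 := by
    intro l'
    rw [Finsupp.filter_apply]
    by_cases hp : l'.Perm l
    · rw [if_pos hp, if_pos hp, hF, Finsupp.erase_ne, Pool.Agent.Q118.NC.W_apply]
      · rfl
      · rintro rfl
        exact hl (List.nil_perm.1 hp)
    · rw [if_neg hp, if_neg hp]
  have hne : (F.filter fun w => w.Perm l) ≠ 0 := by
    intro h0
    have := DFunLike.congr_fun h0 l
    rw [hval, if_pos (List.Perm.refl l)] at this
    exact hlf this
  have hcard := Pool.Agent.Q118.NC.two_pow_le (1 + N) _ hne hJ'
  have hset : {l' : List σ | l'.Perm l ∧ coef f l' ≠ 0} =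
      ((F.filter fun w => w.Perm l).support : Set (List σ)) := by
    ext l'
    rw [Finset.mem_coe, Finsupp.mem_support_iff, hval]
    by_cases hp : l'.Perm l
    · rw [if_pos hp]
      exact ⟨fun h => h.2, fun h => ⟨hp, h⟩⟩
    · rw [if_neg hp]
      exact ⟨fun h => absurd h.1 hp, fun h => absurd rfl h⟩
  rw [hset]
  refine ⟨Finset.finite_toSet _, ?_⟩
  rw [Set.ncard_coe_finset]
  exact hcard

end Pool.Agent.Results.MP_5d2531_al.ManyTerms
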