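import Pool.Agent.Results.MP_5d2531_al.BlockTriangular
import Pool.Agent.Q113.HW.Two

/-!
# A normal form for `n`-central polynomials

Let `n` be a prime and `K` an infinite field in which `n ≠ 0`. If there is an `n`-central polynomial
for `M_n(K)`, in any number of variables, then there is an `n`-central polynomial `q(x, y)` in two
variables which is bihomogeneous, of degree `d` in `x` and `e` in `y`, `e ≤ d` (and `n ≤ e` for odd
`n`), and whose values satisfy `q(x + λ, y + g(x)) = q(x, y)` for all scalars `λ` and all polynomials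
`g ∈ K[x]`.

The proof: the coefficients of `f(x, y + t g(x))` at the powers of `t` are again polynomials; the last
one which is not an identity of `M_n(K)` is `n`-central, and its degree in `y` is smaller than that of
`f` unless `f(x, y + t g(x)) = f(x, y)` on `M_n(K)`. So it suffices to minimize the degree in `y`,
then the degree in `x`.
-/

set_option autoImplicit false

namespace Pool.Agent.Results.MP_5d2531_al.NormalForm

/-- Every value of `f` on `n × n` matrices over `K` is a scalar matrix. -/
def ScalarValued {K : Type*} [Field K] {σ : Type*} (n : ℕ) (f : FreeAlgebra K σ) : Prop :=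
  ∀ X : σ → Matrix (Fin n) (Fin n) K, ∃ c : K, FreeAlgebra.lift K X f = Matrix.scalar (Fin n) c

/-- `f` is central for `M_n(K)`: all values are scalar and `f` is not identically zero. -/
def IsCentral {K : Type*} [Field K] {σ : Type*} (n : ℕ) (f : FreeAlgebra K σ) : Prop :=
  ScalarValued n f ∧ ∃ X : σ → Matrix (Fin n) (Fin n) K, FreeAlgebra.lift K X f ≠ 0

/-- `f` is `ν`-central for `M_n(K)`: `ν` is the least positive integer with `f ^ ν` central. -/
def IsNuCentral {K : Type*} [Field K] {σ : Type*} (n ν : ℕ) (f : FreeAlgebra K σ) : Prop :=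
  0 < ν ∧ IsCentral n (f ^ ν) ∧ ∀ μ : ℕ, 0 < μ → IsCentral n (f ^ μ) → ν ≤ μ

/-- The coefficient of the word `l` in `f`. -/
noncomputable def coef {K : Type*} [Field K] {σ : Type*} (f : FreeAlgebra K σ) (l : List σ) : K :=
  (FreeAlgebra.equivMonoidAlgebraFreeMonoid f).coeff (FreeMonoid.ofList l)

theorem nonempty_word {K : Type*} [Field K] {n : ℕ} (q : FreeAlgebra K (Fin 2))
    (hq : Q113.HW.TT n q) (hn : 0 < n) (hnK : (n : K) ≠ 0) :
    ∃ l : List (Fin 2), l ≠ [] ∧ coef q l ≠ 0 := by
  classical
  by_contra hcon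
  push Not at hcon
  have h1 : q = algebraMap K _ (coef q []) := by
    apply (FreeAlgebra.equivMonoidAlgebraFreeMonoid (R := K) (X := Fin 2)).injective
    rw [AlgEquiv.commutes]
    apply MonoidAlgebra.coeff_injective
    ext w
    rw [MonoidAlgebra.coe_algebraMap]
    simp only [Function.comp_apply, MonoidAlgebra.coeff_single]
    rw [Finsupp.single_apply]
    by_cases hw : (1 : FreeMonoid (Fin 2)) = w
    · subst hw
      rw [if_pos rfl]
      rfl
    · rw [if_neg hw]
      have h2 : FreeMonoid.toList w ≠ [] := fun e => hw (by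
        rw [← FreeMonoid.ofList_toList w, e]; rfl)
      exact hcon _ h2
  obtain ⟨X, hX⟩ := hq.ne
  have h3 := hq.tr X
  rw [h1, AlgHom.commutes] at h3 hX
  apply hX
  have h4 : (n : K) * coef q [] = 0 := by
    simpa [Matrix.algebraMap_eq_diagonal, Matrix.trace_diagonal] using h3
  rw [(mul_eq_zero.1 h4).resolve_left hnK, map_zero]

/-- Let `n` be a prime and `K` an infinite field with `n ≠ 0` in `K`. If some polynomial (in any set
of variables) is `n`-central for `M_n(K)`, then some polynomial `q(x, y)`, `x = x_0`, `y = x_1`, is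
`n`-central, all of whose words contain `d` letters `x` and `e` letters `y` with `e ≤ d` (and `n ≤ e`
if `n` is odd), such that `q(x + t, y + g(x)) = q(x, y)` for all `x, y ∈ M_n(K)`, all `t ∈ K` and all
one variable polynomials `g`. -/
theorem result {K : Type*} [Field K] [Infinite K] {σ : Type*} (n : ℕ) (hn : n.Prime)
    (hnK : (n : K) ≠ 0) (f : FreeAlgebra K σ) (hf : IsNuCentral n n f) :
    ∃ (d e : ℕ) (q : FreeAlgebra K (Fin 2)), IsNuCentral n n q ∧
      (∀ l : List (Fin 2), coef q l ≠ 0 → l.count 0 = d ∧ l.count 1 = e) ∧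
      e ≤ d ∧ (n ≠ 2 → n ≤ e) ∧
      ∀ (x y : Matrix (Fin n) (Fin n) K) (t : K) (g : Polynomial K),
        FreeAlgebra.lift K ![x + Matrix.scalar (Fin n) t, y + Polynomial.aeval x g] q =
          FreeAlgebra.lift K ![x, y] q := by
  obtain ⟨h1, h2, h3⟩ := hf
  obtain ⟨q0, hq0⟩ := Q113.HW.two_variables hn.pos f (Q113.HW.TT_of_nu hn hnK f h2 h3)
  obtain ⟨d, e, q, hq, hqS, hed, hinv⟩ := Q113.HW.normal q0 hq0
  have hnu : IsNuCentral n n q := ⟨h1, Q113.HW.nu_of_TT hn hnK q hq⟩
  have hdeg : ∀ l : List (Fin 2), coef q l ≠ 0 → l.count 0 = d ∧ l.count 1 = e :=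
    fun l hl => Q113.HW.cof_of_mem hqS l hl
  refine ⟨d, e, q, hnu, hdeg, hed, fun hn2 => ?_, fun x y t g => hinv ![x, y] t g⟩
  obtain ⟨l, hl, hlq⟩ := nonempty_word q hq hn.pos hnK
  obtain ⟨-, hwords⟩ := BlockTriangular.result n hn hn2 q hnu
  have h4 := ((hwords l hl hlq).2.2 0)
  rw [← (hdeg l hlq).2]
  refine h4.trans (le_of_eq ?_)
  rw [List.count_eq_countP]
  refine List.countP_congr fun a _ => ?_
  fin_cases a <;> simp

end Pool.Agent.Results.MP_5d2531_al.NormalForm
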